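import Pool.Agent.MP_6b3e96_gt.H77.Spec

/-!
The area formula for injective conformal immersions.
-/

open scoped ContDiff Topology MeasureTheory NNReal ENNReal
open Set Filter Metric MeasureTheory

noncomputable section

namespace Pool.Agent.MP_6b3e96_gt.H48

open Pool.Agent.MP_6b3e96_gt.H77

/-- A local comparison of two measures is a global one. -/
theorem measure_le_of_local {X : Type*} [TopologicalSpace X] [SecondCountableTopology X]
    [MeasurableSpace X] [OpensMeasurableSpace X] {μ ν : Measure X}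
    (h : ∀ x, ∃ U ∈ 𝓝 x, ∀ A ⊆ U, MeasurableSet A → μ A ≤ ν A) : μ ≤ ν := by
  choose U hU h using h
  rcases isEmpty_or_nonempty X with hX | hX
  · rw [Measure.eq_zero_of_isEmpty μ]
    exact Measure.zero_le _
  obtain ⟨s, hs, hc⟩ := TopologicalSpace.countable_cover_nhds
    (f := fun x => interior (U x)) fun x => interior_mem_nhds.2 (hU x)
  have hne : s.Nonempty := by
    obtain ⟨x⟩ := hX
    obtain ⟨y, hy, -⟩ := mem_iUnion₂.1 (hc ▸ mem_univ x : x ∈ ⋃ y ∈ s, interior (U y))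
    exact ⟨y, hy⟩
  obtain ⟨f, rfl⟩ := hs.exists_eq_range hne
  rw [biUnion_range] at hc
  refine Measure.le_iff.2 fun A hA => ?_
  have hm : ∀ n, MeasurableSet (A ∩ disjointed (fun n => interior (U (f n))) n) := fun n =>
    hA.inter (MeasurableSet.disjointed (fun _ => isOpen_interior.measurableSet) n)
  have hd : Pairwise (Function.onFun Disjoint
      fun n => A ∩ disjointed (fun n => interior (U (f n))) n) :=
    (disjoint_disjointed _).mono fun _ _ h => h.mono inter_subset_right inter_subset_right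
  have hA' : A = ⋃ n, A ∩ disjointed (fun n => interior (U (f n))) n := by
    rw [← inter_iUnion, iUnion_disjointed, hc, inter_univ]
  rw [hA', measure_iUnion hd hm, measure_iUnion hd hm]
  exact ENNReal.tsum_le_tsum fun n => h (f n) _
    (inter_subset_right.trans ((disjointed_subset _ n).trans interior_subset)) (hm n)

theorem le_of_forall_pow_mul {x y : ℝ≥0∞} (h : ∀ τ : ℝ≥0, 1 < τ → x ≤ (τ : ℝ≥0∞) ^ 4 * y) :
    x ≤ y := by
  have h1 : Tendsto (fun τ : ℝ≥0 => (τ : ℝ≥0∞) ^ 4) (𝓝[>] 1) (𝓝 1) := by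
    have : Continuous fun τ : ℝ≥0 => ((τ ^ 4 : ℝ≥0) : ℝ≥0∞) :=
      ENNReal.continuous_coe.comp (continuous_pow 4)
    simpa using (this.tendsto 1).mono_left (nhdsWithin_le_nhds (s := Ioi 1))
  have h2 := ENNReal.Tendsto.mul_const (b := y) h1 (Or.inl one_ne_zero)
  rw [one_mul] at h2
  exact ge_of_tendsto h2 (eventually_mem_nhdsWithin.mono h)

theorem hausdorff_image_le {X Y : Type*} [EMetricSpace X] [MeasurableSpace X] [BorelSpace X]
    [EMetricSpace Y] [MeasurableSpace Y] [BorelSpace Y] {K : ℝ≥0} {f : X → Y} {s : Set X}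
    (h : LipschitzOnWith K f s) : μHE[2] (f '' s) ≤ (K : ℝ≥0∞) ^ 2 * μHE[2] s := by
  have h1 := h.hausdorffMeasure_image_le (d := (2 : ℕ)) (by simp)
  rw [ENNReal.rpow_natCast] at h1
  simp only [Measure.euclideanHausdorffMeasure_def, Measure.smul_apply, ENNReal.smul_def,
    smul_eq_mul]
  rw [mul_left_comm]
  exact mul_le_mul_right h1 _

theorem hausdorff_complex : (μHE[2] : Measure ℂ) = volume := by
  rw [← Complex.finrank_real_complex]
  exact InnerProductSpace.euclideanHausdorffMeasure_eq_volume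

variable {O : Set ℂ} {g : ℂ → E4} {lam : ℂ → ℝ}

theorem lam_cont (hO : IsOpen O) (hg : ContDiffOn ℝ 1 g O)
    (hc : ∀ w ∈ O, 0 < lam w ∧ ∀ v, ‖fderiv ℝ g w v‖ = lam w * ‖v‖) : ContinuousOn lam O := by
  have h := ((hg.continuousOn_fderiv_of_isOpen hO le_rfl).clm_apply
    (continuousOn_const (c := (1 : ℂ)))).norm
  refine h.congr fun w hw => ?_
  simp [(hc w hw).2 1]

theorem local_bound (hO : IsOpen O) (hg : ContDiffOn ℝ 1 g O) (hi : InjOn g O)
    (hc : ∀ w ∈ O, 0 < lam w ∧ ∀ v, ‖fderiv ℝ g w v‖ = lam w * ‖v‖) {τ : ℝ≥0} (hτ : 1 < τ)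
    {p : ℂ} (hp : p ∈ O) : ∃ U ∈ 𝓝 p, ∀ A ⊆ U, MeasurableSet A →
      μHE[2] (g '' A) ≤ (τ : ℝ≥0∞) ^ 4 * ∫⁻ w in A, ENNReal.ofReal (lam w ^ 2) ∧
      ∫⁻ w in A, ENNReal.ofReal (lam w ^ 2) ≤ (τ : ℝ≥0∞) ^ 4 * μHE[2] (g '' A) := by
  obtain ⟨hl, hL⟩ := hc p hp
  have hτ' : (1 : ℝ) < τ := hτ
  have hτ0 : (0 : ℝ) < τ := zero_lt_one.trans hτ'
  let a : ℝ≥0 := ⟨lam p / τ, by positivity⟩
  have ha : (a : ℝ) = lam p / τ := rfl
  have ha0 : (0 : ℝ) < a := by rw [ha]; positivity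
  have ha1 : (a : ℝ) < lam p := by rw [ha]; exact div_lt_self hl hτ'
  have hla : lam p = τ * a := by rw [ha]; field_simp
  let ε : ℝ≥0 := ⟨lam p - a, sub_nonneg.2 ha1.le⟩
  have hε : (ε : ℝ) = lam p - a := rfl
  have hε0 : 0 < ε := by
    rw [← NNReal.coe_pos, hε]; exact sub_pos.2 ha1
  have hb : lam p + ε ≤ ((τ ^ 2 * a : ℝ≥0) : ℝ) := by
    rw [hε, hla]
    push_cast
    nlinarith [mul_nonneg ha0.le (sq_nonneg ((τ : ℝ) - 1))]
  have hs : HasStrictFDerivAt g (fderiv ℝ g p) p :=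
    (hg.contDiffAt (hO.mem_nhds hp)).hasStrictFDerivAt one_ne_zero
  obtain ⟨s, hs1, hs2⟩ := hs.approximates_deriv_on_nhds (c := ε) (Or.inr hε0)
  have hcont : ContinuousAt lam p := (lam_cont hO hg hc).continuousAt (hO.mem_nhds hp)
  have hnb : ∀ᶠ w in 𝓝 p, |lam w - lam p| < ε :=
    hcont.eventually (p := fun x => |x - lam p| < ε) (eventually_abs_sub_lt _ hε0)
  refine ⟨_, inter_mem (inter_mem hs1 (hO.mem_nhds hp)) hnb, fun A hA hAm => ?_⟩
  have hup : LipschitzOnWith (τ ^ 2 * a) g A := by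
    refine LipschitzOnWith.of_dist_le_mul fun x hx y hy => ?_
    have h1 := hs2 x (hA hx).1.1 y (hA hy).1.1
    have h2 := norm_le_insert' (g x - g y) (fderiv ℝ g p (x - y))
    rw [hL] at h2
    rw [dist_eq_norm, dist_eq_norm]
    nlinarith [norm_nonneg (x - y)]
  have hlo : LipschitzOnWith a⁻¹ (Function.invFunOn g O) (g '' A) := by
    refine LipschitzOnWith.of_dist_le_mul ?_
    rintro _ ⟨x, hx, rfl⟩ _ ⟨y, hy, rfl⟩
    rw [hi.leftInvOn_invFunOn (hA hx).1.2, hi.leftInvOn_invFunOn (hA hy).1.2]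
    have h1 := hs2 x (hA hx).1.1 y (hA hy).1.1
    have h2 := norm_le_insert (g x - g y) (fderiv ℝ g p (x - y))
    rw [hL] at h2
    rw [dist_eq_norm, dist_eq_norm, NNReal.coe_inv, le_inv_mul_iff₀ ha0]
    rw [hε] at h1
    nlinarith [norm_nonneg (x - y)]
  have e1 := hausdorff_image_le hup
  have e2 := hausdorff_image_le hlo
  rw [hi.invFunOn_image fun x hx => (hA hx).1.2] at e2
  rw [hausdorff_complex] at e1 e2
  have ha0' : a ≠ 0 := (NNReal.coe_pos.1 ha0).ne'
  have e3 : (a : ℝ≥0∞) ^ 2 * volume A ≤ μHE[2] (g '' A) := by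
    refine (mul_le_mul_right e2 _).trans_eq ?_
    rw [← mul_assoc, ← mul_pow, ← ENNReal.coe_mul, mul_inv_cancel₀ ha0']
    simp
  have e4 : (a : ℝ≥0∞) ^ 2 * volume A ≤ ∫⁻ w in A, ENNReal.ofReal (lam w ^ 2) := by
    rw [← setLIntegral_const]
    refine setLIntegral_mono' hAm fun w hw => ?_
    rw [← ENNReal.coe_pow, ← ENNReal.ofReal_coe_nnreal]
    refine ENNReal.ofReal_le_ofReal ?_
    have := abs_lt.1 (show |lam w - lam p| < ε from (hA hw).2)
    rw [NNReal.coe_pow]
    exact pow_le_pow_left₀ ha0.le (by linarith) 2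
  have e5 : ∫⁻ w in A, ENNReal.ofReal (lam w ^ 2) ≤
      ((τ ^ 2 * a : ℝ≥0) : ℝ≥0∞) ^ 2 * volume A := by
    rw [← setLIntegral_const]
    refine setLIntegral_mono' hAm fun w hw => ?_
    rw [← ENNReal.coe_pow, ← ENNReal.ofReal_coe_nnreal]
    refine ENNReal.ofReal_le_ofReal ?_
    have := abs_lt.1 (show |lam w - lam p| < ε from (hA hw).2)
    rw [NNReal.coe_pow]
    exact pow_le_pow_left₀ (hc w (hA hw).1.2).1.le (by linarith) 2
  have e6 : ((τ ^ 2 * a : ℝ≥0) : ℝ≥0∞) ^ 2 * volume A =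
      (τ : ℝ≥0∞) ^ 4 * ((a : ℝ≥0∞) ^ 2 * volume A) := by
    push_cast
    ring
  rw [e6] at e1 e5
  exact ⟨e1.trans (mul_le_mul_right e4 _), e5.trans (mul_le_mul_right e3 _)⟩

theorem comap_eq (hO : IsOpen O) (hg : ContDiffOn ℝ 1 g O) (hi : InjOn g O)
    (hc : ∀ w ∈ O, 0 < lam w ∧ ∀ v, ‖fderiv ℝ g w v‖ = lam w * ‖v‖) :
    Measure.comap (O.domRestrict g) μHE[2] =
      Measure.comap (↑) (volume.withDensity fun w => ENNReal.ofReal (lam w ^ 2)) := by
  have he := hg.continuousOn.measurableEmbedding hO.measurableSet hi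
  have hv := MeasurableEmbedding.subtype_coe hO.measurableSet
  have key : ∀ τ : ℝ≥0, 1 < τ → ∀ p : O, ∃ U ∈ 𝓝 p, ∀ A ⊆ U, MeasurableSet A →
      Measure.comap (O.domRestrict g) μHE[2] A ≤ (τ : ℝ≥0∞) ^ 4 *
        Measure.comap (↑) (volume.withDensity fun w => ENNReal.ofReal (lam w ^ 2)) A ∧
      Measure.comap (↑) (volume.withDensity fun w => ENNReal.ofReal (lam w ^ 2)) A ≤
        (τ : ℝ≥0∞) ^ 4 * Measure.comap (O.domRestrict g) μHE[2] A := by
    intro τ hτ p
    obtain ⟨U, hU, h⟩ := local_bound hO hg hi hc hτ p.2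
    refine ⟨(↑) ⁻¹' U, continuous_subtype_val.continuousAt.preimage_mem_nhds hU,
      fun A hA hAm => ?_⟩
    have hm := hv.measurableSet_image.2 hAm
    rw [he.comap_apply, hv.comap_apply, withDensity_apply _ hm, Set.domRestrict_eq, image_comp]
    exact h _ (image_subset_iff.2 hA) hm
  refine le_antisymm (Measure.le_iff.2 fun A hA => le_of_forall_pow_mul fun τ hτ => ?_)
    (Measure.le_iff.2 fun A hA => le_of_forall_pow_mul fun τ hτ => ?_)
  · refine measure_le_of_local (ν := (τ : ℝ≥0∞) ^ 4 • _) (fun p => ?_) A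
    obtain ⟨U, hU, h⟩ := key τ hτ p
    exact ⟨U, hU, fun A hA hAm => (h A hA hAm).1⟩
  · refine measure_le_of_local (ν := (τ : ℝ≥0∞) ^ 4 • _) (fun p => ?_) A
    obtain ⟨U, hU, h⟩ := key τ hτ p
    exact ⟨U, hU, fun A hA hAm => (h A hA hAm).2⟩

theorem area : AreaStmt := by
  intro O g lam h hO hg hi hc
  have hs := hO.measurableSet
  have he := hg.continuousOn.measurableEmbedding hs hi
  have hr : (μHE[2] : Measure E4).restrict (g '' O) = Measure.map (O.domRestrict g)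
      (Measure.comap (↑) (volume.withDensity fun w => ENNReal.ofReal (lam w ^ 2))) := by
    rw [← comap_eq hO hg hi hc, he.map_comap, range_domRestrict]
  have hm : AEMeasurable (fun w => (lam w ^ 2).toNNReal) (volume.restrict O) :=
    (((lam_cont hO hg hc).pow 2).aemeasurable hs).real_toNNReal
  constructor
  · rw [IntegrableOn, hr, he.integrable_map_iff]
    simp only [Set.domRestrict_eq, ← Function.comp_assoc, ENNReal.ofReal]
    rw [← (MeasurableEmbedding.subtype_coe hs).integrable_map_iff, map_comap_subtype_coe hs,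
      restrict_withDensity hs, integrable_withDensity_iff_integrable_coe_smul₀ hm]
    simp_rw [IntegrableOn, Real.coe_toNNReal _ (sq_nonneg _), Function.comp_apply, smul_eq_mul]
  · rw [hr, he.integral_map]
    simp only [Set.domRestrict_apply, ← Function.comp_apply (f := h), ENNReal.ofReal]
    rw [← (MeasurableEmbedding.subtype_coe hs).integral_map, map_comap_subtype_coe hs,
      setIntegral_withDensity_eq_setIntegral_smul₀ hm _ hs]
    congr with x
    rw [NNReal.smul_def, Real.coe_toNNReal _ (sq_nonneg _), smul_eq_mul]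

end Pool.Agent.MP_6b3e96_gt.H48
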